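import Mathlib

set_option autoImplicit false

/-!
A counterexample (r = 3, H = K_{1,3}) to the star-join list colouring conjecture.

Piece: five pairwise adjacent hubs and five pairwise non-adjacent small vertices, the small vertex
number i being adjacent to all hubs except hub number i. The graph G is obtained by gluing
64 * 7 pieces along their first three hubs.
-/

namespace Pool.Agent.W_MP_2d9473_co_helper56

/-- Pieces: a colouring of the triangle and a copy number. -/
abbrev Pc := (Fin 3 → Fin 4) × Fin 7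

/-- Vertices: the triangle, and in each piece two further hubs and five small vertices. -/
abbrev Vt := Fin 3 ⊕ (Pc × (Fin 2 ⊕ Fin 5))

/-- The label of a vertex: hub number or small vertex number. -/
def lab : Vt → Fin 5 ⊕ Fin 5
  | Sum.inl i => Sum.inl (Fin.castLE (by omega) i)
  | Sum.inr (_, Sum.inl j) => Sum.inl (Fin.natAdd 3 j)
  | Sum.inr (_, Sum.inr j) => Sum.inr j

/-- The piece containing a vertex outside the triangle. -/
def cmp : Vt → Option Pc
  | Sum.inl _ => none
  | Sum.inr (k, _) => some k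

/-- Adjacency inside one piece. -/
def labAdj : Fin 5 ⊕ Fin 5 → Fin 5 ⊕ Fin 5 → Prop
  | Sum.inl i, Sum.inl j => i ≠ j
  | Sum.inl i, Sum.inr j => i ≠ j
  | Sum.inr i, Sum.inl j => i ≠ j
  | Sum.inr _, Sum.inr _ => False

lemma labAdj_symm {x y : Fin 5 ⊕ Fin 5} (h : labAdj x y) : labAdj y x := by
  rcases x with x | x <;> rcases y with y | y <;> simp only [labAdj] at h ⊢ <;>
    first | exact h | exact h.symm

lemma labAdj_irrefl {x : Fin 5 ⊕ Fin 5} (h : labAdj x x) : False := by
  rcases x with x | x <;> simp [labAdj] at h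

/-- The graph. -/
def G : SimpleGraph Vt where
  Adj x y := (cmp x = none ∨ cmp y = none ∨ cmp x = cmp y) ∧ labAdj (lab x) (lab y)
  symm := by
    constructor
    rintro x y ⟨h1, h2⟩
    refine ⟨?_, labAdj_symm h2⟩
    rcases h1 with h | h | h
    · exact Or.inr (Or.inl h)
    · exact Or.inl h
    · exact Or.inr (Or.inr h.symm)
  loopless := ⟨fun x h => labAdj_irrefl h.2⟩

/-- The hubs of a piece. -/
def hub (k : Pc) (i : Fin 5) : Vt :=
  if h : i.1 < 3 then Sum.inl ⟨i.1, h⟩ else Sum.inr (k, Sum.inl ⟨i.1 - 3, by omega⟩)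

lemma hub_castLE (k : Pc) (i : Fin 3) : hub k (Fin.castLE (by omega) i) = Sum.inl i := by
  have : i.1 < 3 := i.2
  simp [hub]

lemma hub_natAdd (k : Pc) (i : Fin 2) : hub k (Fin.natAdd 3 i) = Sum.inr (k, Sum.inl i) := by
  simp [hub]

lemma adj_cmp {x y : Vt} {k l : Pc} (h : G.Adj x y) (hx : cmp x = some k) (hy : cmp y = some l) :
    k = l := by
  rcases h.1 with h | h | h
  · rw [hx] at h; exact absurd h (by simp)
  · rw [hy] at h; exact absurd h (by simp)
  · rw [hx, hy] at h; exact Option.some.inj h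

lemma adj_small {k : Pc} {i : Fin 5} {y : Vt} (h : G.Adj (Sum.inr (k, Sum.inr i)) y) :
    ∃ t, t ≠ i ∧ y = hub k t := by
  rcases y with t | ⟨l, t | t⟩
  · refine ⟨Fin.castLE (by omega) t, ?_, (hub_castLE k t).symm⟩
    have := h.2
    simp only [lab, labAdj] at this
    exact this.symm
  · have hkl : k = l := adj_cmp h rfl rfl
    subst hkl
    refine ⟨Fin.natAdd 3 t, ?_, (hub_natAdd k t).symm⟩
    have := h.2
    simp only [lab, labAdj] at this
    exact this.symm
  · exact absurd h.2 (by simp [lab, labAdj])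

/-- A connected set avoiding the triangle lies in one piece. -/
lemma piece_of_connected {B : Set Vt} (hB : (G.induce B).Connected)
    (hT : ∀ i : Fin 3, (Sum.inl i : Vt) ∉ B) : ∃ k, ∀ v ∈ B, cmp v = some k := by
  obtain ⟨⟨v0, hv0⟩⟩ := hB.nonempty
  have hsome : ∀ v ∈ B, ∃ k, cmp v = some k := by
    intro v hv
    rcases v with i | ⟨k, x⟩
    · exact absurd hv (hT i)
    · exact ⟨k, rfl⟩
  obtain ⟨k, hk⟩ := hsome v0 hv0
  refine ⟨k, ?_⟩
  intro v hv
  have hr : (G.induce B).Reachable ⟨v0, hv0⟩ ⟨v, hv⟩ := hB.preconnected _ _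
  rw [SimpleGraph.reachable_iff_reflTransGen] at hr
  have key : ∀ w : B, Relation.ReflTransGen (G.induce B).Adj ⟨v0, hv0⟩ w → cmp w.1 = some k := by
    intro w hw
    induction hw with
    | refl => exact hk
    | @tail b c _ hbc ih =>
      obtain ⟨l, hl⟩ := hsome c.1 c.2
      have hadj : G.Adj b.1 c.1 := hbc
      have := adj_cmp hadj ih hl
      rw [hl, this]
  exact key _ hr

/-- A connected set of small vertices of one piece is a singleton. -/
lemma singleton_of_connected {B : Set Vt} (hB : (G.induce B).Connected) (k : Pc)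
    (hk : ∀ v ∈ B, cmp v = some k) (hh : ∀ t, hub k t ∉ B) :
    ∃ s : Fin 5, B = {Sum.inr (k, Sum.inr s)} := by
  have hform : ∀ v ∈ B, ∃ s : Fin 5, v = Sum.inr (k, Sum.inr s) := by
    intro v hv
    rcases v with i | ⟨l, t | t⟩
    · exact absurd (hk _ hv) (by simp [cmp])
    · have : l = k := Option.some.inj (hk _ hv)
      subst this
      exact absurd hv (by rw [← hub_natAdd]; exact hh _)
    · have : l = k := Option.some.inj (hk _ hv)
      subst this
      exact ⟨t, rfl⟩
  obtain ⟨⟨v0, hv0⟩⟩ := hB.nonempty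
  obtain ⟨s, hs⟩ := hform v0 hv0
  refine ⟨s, ?_⟩
  ext v
  constructor
  · intro hv
    have hr : (G.induce B).Reachable ⟨v0, hv0⟩ ⟨v, hv⟩ := hB.preconnected _ _
    rw [SimpleGraph.reachable_iff_reflTransGen] at hr
    have key : ∀ w : B, Relation.ReflTransGen (G.induce B).Adj ⟨v0, hv0⟩ w → w.1 = v0 := by
      intro w hw
      induction hw with
      | refl => rfl
      | @tail b c _ hbc ih =>
        exfalso
        have hadj : G.Adj b.1 c.1 := hbc
        rw [ih, hs] at hadj
        obtain ⟨t, _, ht⟩ := adj_small hadj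
        exact hh t (ht ▸ c.2)
    have := key _ hr
    simp only at this
    rw [this, hs]; rfl
  · intro hv
    have : v = Sum.inr (k, Sum.inr s) := hv
    rw [this, ← hs]; exact hv0

/-- The parts of K_{1,1,2,3}. -/
def part : Fin 7 → Fin 4 := ![0, 1, 2, 2, 3, 3, 3]

lemma inj_off (β : Fin 5 → Fin 7) (hβ : ∀ t, part (β t) ≠ 3) (a : Fin 5)
    (h : ∀ j, part j ≠ 3 → ∃ t, t ≠ a ∧ β t = j) :
    ∀ t t', t ≠ a → t' ≠ a → β t = β t' → t = t' := by
  let f : {t : Fin 5 // t ≠ a} → {j : Fin 7 // part j ≠ 3} := fun t => ⟨β t.1, hβ t.1⟩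
  have hs : Function.Surjective f := by
    rintro ⟨j, hj⟩
    obtain ⟨t, ht, htj⟩ := h j hj
    exact ⟨⟨t, ht⟩, Subtype.ext htj⟩
  have hc : Fintype.card {t : Fin 5 // t ≠ a} = Fintype.card {j : Fin 7 // part j ≠ 3} := by
    rw [Fintype.card_subtype_compl, Fintype.card_subtype_eq]
    decide
  have hb := (Fintype.bijective_iff_surjective_and_card f).2 ⟨hs, hc⟩
  intro t t' ht ht' hE
  have := hb.injective (a₁ := ⟨t, ht⟩) (a₂ := ⟨t', ht'⟩) (Subtype.ext hE)
  exact congrArg Subtype.val this

/-- The combinatorial core. -/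
lemma comb (R : Fin 5 → Fin 7 → Prop) (hR : ∀ t i j, R t i → R t j → i = j)
    (σ : Fin 7 → Fin 5)
    (hσ : ∀ i j, (∀ t, ¬ R t i) → (∀ t, ¬ R t j) → σ i = σ j → i = j)
    (hP : ∀ i, (∀ t, ¬ R t i) → ∀ j, part i ≠ part j → ∃ t, t ≠ σ i ∧ R t j) : False := by
  classical
  -- two branch sets without hub
  set S : Finset (Fin 7) := Finset.univ.filter (fun i => ∀ t, ¬ R t i) with hS
  have hSc : (Finset.univ \ S).card ≤ 5 := by
    have hex : ∀ i, ∃ t, i ∉ S → R t i := by
      intro i
      by_cases hi : i ∈ S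
      · exact ⟨0, fun h => absurd hi h⟩
      · have : ∃ t, R t i := by
          by_contra hcon
          push Not at hcon
          exact hi (by simp [hS, hcon])
        obtain ⟨t, ht⟩ := this
        exact ⟨t, fun _ => ht⟩
    choose t ht using hex
    have := Finset.card_le_card_of_injOn (s := Finset.univ \ S) (t := (Finset.univ : Finset (Fin 5)))
      t (by intro i _; simp) (by
        intro i hi j hj hij
        have hi' : i ∉ S := by simpa using hi
        have hj' : j ∉ S := by simpa using hj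
        have h1 := ht i hi'
        have h2 := ht j hj'
        rw [hij] at h1
        exact hR _ _ _ h1 h2)
    simpa using this
  have hS2 : 1 < S.card := by
    have h7 : (Finset.univ \ S).card + S.card = 7 := by
      have := Finset.card_sdiff_add_card_eq_card (Finset.subset_univ S)
      simpa using this
    omega
  obtain ⟨i1, hi1, i2, hi2, h12⟩ := Finset.one_lt_card.1 hS2
  have hmemS : ∀ i, i ∈ S ↔ ∀ t, ¬ R t i := by intro i; simp [hS]
  -- choice of hubs in the neighbouring branch sets
  have hcov : ∀ i ∈ S, part i = 3 ∧ ∀ t, t ≠ σ i → ∃ j, part j ≠ 3 ∧ R t j := by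
    intro i hi
    have hi' := (hmemS i).1 hi
    have hex : ∀ j, ∃ t, part i ≠ part j → t ≠ σ i ∧ R t j := by
      intro j
      by_cases hj : part i ≠ part j
      · obtain ⟨t, ht⟩ := hP i hi' j hj
        exact ⟨t, fun _ => ht⟩
      · exact ⟨0, fun h => absurd h hj⟩
    choose t ht using hex
    set N : Finset (Fin 7) := Finset.univ.filter (fun j => part i ≠ part j) with hN
    have hinj : Set.InjOn t N := by
      intro j hj j' hj' hE
      have h1 := (ht j (by simpa [hN] using hj)).2
      have h2 := (ht j' (by simpa [hN] using hj')).2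
      rw [hE] at h1
      exact hR _ _ _ h1 h2
    have hmaps : ∀ j ∈ N, t j ∈ (Finset.univ : Finset (Fin 5)).erase (σ i) := by
      intro j hj
      have h1 := (ht j (by simpa [hN] using hj)).1
      simp [h1]
    have hcardN : N.card ≤ 4 := by
      have := Finset.card_le_card_of_injOn t hmaps hinj
      simpa using this
    have hpart : part i = 3 := by
      have : ∀ i : Fin 7, (Finset.univ.filter (fun j => part i ≠ part j)).card ≤ 4 → part i = 3 := by
        decide
      exact this i hcardN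
    have hcardN' : N.card = 4 := by
      have : ∀ i : Fin 7, part i = 3 → (Finset.univ.filter (fun j => part i ≠ part j)).card = 4 := by
        decide
      exact this i hpart
    refine ⟨hpart, ?_⟩
    intro s hs
    have himg : N.image t = (Finset.univ : Finset (Fin 5)).erase (σ i) := by
      apply Finset.eq_of_subset_of_card_le
      · intro s hs
        obtain ⟨j, hj, rfl⟩ := Finset.mem_image.1 hs
        exact hmaps j hj
      · rw [Finset.card_image_of_injOn hinj, hcardN']
        simp
    have : s ∈ N.image t := by rw [himg]; simp [hs]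
    obtain ⟨j, hj, rfl⟩ := Finset.mem_image.1 this
    have hj' : part i ≠ part j := by simpa [hN] using hj
    refine ⟨j, ?_, (ht j hj').2⟩
    rw [← hpart]; exact hj'.symm
  have hσ12 : σ i1 ≠ σ i2 := fun h => h12 (hσ i1 i2 ((hmemS _).1 hi1) ((hmemS _).1 hi2) h)
  have hall : ∀ t, ∃ j, part j ≠ 3 ∧ R t j := by
    intro t
    by_cases h : t = σ i1
    · exact (hcov i2 hi2).2 t (by rw [h]; exact hσ12)
    · exact (hcov i1 hi1).2 t h
  choose β hβ1 hβ2 using hall
  have hthree : ∀ i, part i = 3 → ∀ t, ¬ R t i := by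
    intro i hi t ht
    have := hR _ _ _ ht (hβ2 t)
    exact hβ1 t (this ▸ hi)
  have hsur : ∀ i, part i = 3 → ∀ j, part j ≠ 3 → ∃ t, t ≠ σ i ∧ β t = j := by
    intro i hi j hj
    obtain ⟨t, ht, htR⟩ := hP i (hthree i hi) j (by rw [hi]; exact hj.symm)
    exact ⟨t, ht, hR _ _ _ (hβ2 t) htR⟩
  have p4 : part 4 = 3 := rfl
  have p5 : part 5 = 3 := rfl
  have p6 : part 6 = 3 := rfl
  obtain ⟨t0, ht0, ht0β⟩ := hsur 4 p4 (β (σ 4)) (hβ1 _)
  have hne : ∀ i, part i = 3 → i ≠ 4 → t0 = σ i := by
    intro i hi hi4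
    by_contra hcon
    have h4 : σ 4 ≠ σ i := fun h => hi4 (hσ 4 i (hthree 4 p4) (hthree i hi) h).symm
    exact ht0 (inj_off β hβ1 (σ i) (hsur i hi) t0 (σ 4) hcon h4 ht0β)
  have h5 := hne 5 p5 (by decide)
  have h6 := hne 6 p6 (by decide)
  have : (5 : Fin 7) = 6 := hσ 5 6 (hthree 5 p5) (hthree 6 p6) (h5.symm.trans h6)
  exact absurd this (by decide)

/-- The graph has no K_{1,1,2,3} minor. -/
theorem no_minor (g : Fin 7 → Set Vt) (hc : ∀ i, (G.induce (g i)).Connected)
    (hd : ∀ i j, i ≠ j → Disjoint (g i) (g j))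
    (ha : ∀ i j, part i ≠ part j → ∃ x ∈ g i, ∃ y ∈ g j, G.Adj x y) : False := by
  classical
  set M : Finset (Fin 7) := Finset.univ.filter (fun i => ∃ t : Fin 3, (Sum.inl t : Vt) ∈ g i)
    with hMdef
  have hM : M.card ≤ 3 := by
    have hex : ∀ i, ∃ t : Fin 3, i ∈ M → (Sum.inl t : Vt) ∈ g i := by
      intro i
      by_cases hi : i ∈ M
      · obtain ⟨t, ht⟩ : ∃ t : Fin 3, (Sum.inl t : Vt) ∈ g i := by simpa [hMdef] using hi
        exact ⟨t, fun _ => ht⟩
      · exact ⟨0, fun h => absurd h hi⟩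
    choose t ht using hex
    have := Finset.card_le_card_of_injOn (s := M) (t := (Finset.univ : Finset (Fin 3)))
      t (by intro i _; simp) (by
        intro i hi j hj hij
        by_contra hne
        have h1 := ht i hi
        have h2 := ht j hj
        rw [hij] at h1
        exact Set.disjoint_left.1 (hd i j hne) h1 h2)
    simpa using this
  have hnM : ∀ i, i ∉ M → ∀ t : Fin 3, (Sum.inl t : Vt) ∉ g i := by
    intro i hi t ht
    exact hi (by simpa [hMdef] using ⟨t, ht⟩)
  have hk : ∀ i, ∃ k, i ∉ M → ∀ v ∈ g i, cmp v = some k := by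
    intro i
    by_cases hi : i ∈ M
    · exact ⟨(fun _ => 0, 0), fun h => absurd hi h⟩
    · obtain ⟨k, hk⟩ := piece_of_connected (hc i) (hnM i hi)
      exact ⟨k, fun _ => hk⟩
  choose kk hkk using hk
  have hdir : ∀ i j, i ∉ M → j ∉ M → part i ≠ part j → kk i = kk j := by
    intro i j hi hj hij
    obtain ⟨x, hx, y, hy, hxy⟩ := ha i j hij
    exact adj_cmp hxy (hkk i hi x hx) (hkk j hj y hy)
  have hsame : ∀ i j, i ∉ M → j ∉ M → kk i = kk j := by
    intro i j hi hj
    by_cases hij : part i ≠ part j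
    · exact hdir i j hi hj hij
    · push Not at hij
      have hcard : 4 ≤ (Finset.univ.filter (fun m => part i ≠ part m)).card := by
        have : ∀ i : Fin 7, 4 ≤ (Finset.univ.filter (fun m => part i ≠ part m)).card := by decide
        exact this i
      obtain ⟨m, hm, hmM⟩ := Finset.exists_mem_notMem_of_card_lt_card
        (s := M) (t := Finset.univ.filter (fun m => part i ≠ part m)) (by omega)
      have hm' : part i ≠ part m := by simpa using hm
      exact (hdir i m hi hmM hm').trans (hdir m j hmM hj (by rw [← hij]; exact hm'.symm))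
  obtain ⟨i0, _, hi0⟩ := Finset.exists_mem_notMem_of_card_lt_card
        (s := M) (t := (Finset.univ : Finset (Fin 7))) (by simp; omega)
  set k := kk i0 with hkdef
  have hin : ∀ i, i ∉ M → ∀ v ∈ g i, cmp v = some k := by
    intro i hi v hv
    rw [hkdef, ← hsame i i0 hi hi0]
    exact hkk i hi v hv
  have hsing : ∀ i, ∃ s : Fin 5, (∀ t, ¬ hub k t ∈ g i) → g i = {Sum.inr (k, Sum.inr s)} := by
    intro i
    by_cases h : ∀ t, ¬ hub k t ∈ g i
    · have hiM : i ∉ M := by
        intro hi
        obtain ⟨t, ht⟩ : ∃ t : Fin 3, (Sum.inl t : Vt) ∈ g i := by simpa [hMdef] using hi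
        rw [← hub_castLE k t] at ht
        exact h _ ht
      obtain ⟨s, hs⟩ := singleton_of_connected (hc i) k (hin i hiM) h
      exact ⟨s, fun _ => hs⟩
    · exact ⟨0, fun h' => absurd h' h⟩
  choose σ hσ using hsing
  refine comb (fun t i => hub k t ∈ g i) ?_ σ ?_ ?_
  · intro t i j hi hj
    by_contra hne
    exact Set.disjoint_left.1 (hd i j hne) hi hj
  · intro i j hi hj hE
    by_contra hne
    have h1 := hσ i hi
    have h2 := hσ j hj
    rw [hE] at h1
    have h3 : (Sum.inr (k, Sum.inr (σ j)) : Vt) ∈ g i := by rw [h1]; rfl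
    have h4 : (Sum.inr (k, Sum.inr (σ j)) : Vt) ∈ g j := by rw [h2]; rfl
    exact Set.disjoint_left.1 (hd i j hne) h3 h4
  · intro i hi j hij
    obtain ⟨x, hx, y, hy, hxy⟩ := ha i j hij
    rw [hσ i hi] at hx
    have hx' : x = Sum.inr (k, Sum.inr (σ i)) := hx
    rw [hx'] at hxy
    obtain ⟨t, ht, rfl⟩ := adj_small hxy
    exact ⟨t, ht, hy⟩

end Pool.Agent.W_MP_2d9473_co_helper56
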