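import Mathlib
import Pool.Agent.W_MP_2d9473_co_helper56.Star

set_option autoImplicit false

/-!
The list assignment on the graph, and the proof that every list colouring has a
monochromatic star with three leaves.
-/

namespace Pool.Agent.W_MP_2d9473_co_helper56

/-- The star with three leaves. -/
def star : SimpleGraph (Option (Fin 3)) where
  Adj x y := (x = none ∧ y ≠ none) ∨ (x ≠ none ∧ y = none)
  symm := ⟨by
    rintro x y (⟨h1, h2⟩ | ⟨h1, h2⟩)
    · exact Or.inr ⟨h2, h1⟩
    · exact Or.inl ⟨h2, h1⟩⟩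
  loopless := ⟨by
    rintro x (⟨h1, h2⟩ | ⟨h1, h2⟩)
    · exact h2 h1
    · exact h1 h2⟩

lemma star_connected : star.Connected := by
  have h0 : ∀ x, star.Reachable none x := by
    intro x
    by_cases hx : x = none
    · rw [hx]
    · exact SimpleGraph.Adj.reachable (Or.inl ⟨rfl, hx⟩)
  refine ⟨fun x y => (h0 x).symm.trans (h0 y)⟩

lemma star_edge : star.edgeSet.Nonempty :=
  ⟨s(none, some 0), by
    rw [SimpleGraph.mem_edgeSet]
    exact Or.inl ⟨rfl, by simp⟩⟩

/-- The colour numbers of a triangle colouring. -/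
def cl (φ : Fin 3 → Fin 4) (i : Fin 3) : ℕ := 4 * i.1 + (φ i).1

/-- Lists inside a piece. -/
def Lp (φ : Fin 3 → Fin 4) : Fin 2 ⊕ Fin 5 → Finset ℕ
  | Sum.inl 0 => {cl φ 0, cl φ 1, cl φ 2, 12}
  | Sum.inl 1 => {cl φ 0, cl φ 1, cl φ 2, 13}
  | Sum.inr 0 => {cl φ 1, cl φ 2, 12, 13}
  | Sum.inr 1 => {cl φ 0, cl φ 2, 12, 13}
  | Sum.inr 2 => {cl φ 0, cl φ 1, 12, 13}
  | Sum.inr 3 => {cl φ 0, cl φ 1, cl φ 2, 13}
  | Sum.inr 4 => {cl φ 0, cl φ 1, cl φ 2, 12}

/-- The list assignment. -/
def L : Vt → Finset ℕ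
  | Sum.inl i => {4 * i.1, 4 * i.1 + 1, 4 * i.1 + 2, 4 * i.1 + 3}
  | Sum.inr ((φ, _), x) => Lp φ x

lemma card_four {a b c d : ℕ} (h1 : a < b) (h2 : b < c) (h3 : c < d) :
    ({a, b, c, d} : Finset ℕ).card = 4 := by
  rw [Finset.card_insert_of_notMem, Finset.card_insert_of_notMem, Finset.card_insert_of_notMem,
    Finset.card_singleton]
  · simp; omega
  · simp; omega
  · simp; omega

lemma L_card (v : Vt) : (L v).card = 4 := by
  rcases v with i | ⟨⟨φ, n⟩, x⟩
  · exact card_four (by omega) (by omega) (by omega)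
  · have h0 : cl φ 0 < 4 := by have := (φ 0).2; simp only [cl]; simp
    have h1 : 4 ≤ cl φ 1 ∧ cl φ 1 < 8 := by
      have := (φ 1).2
      simp only [cl]
      constructor
      · simp
      · simp; omega
    have h2 : 8 ≤ cl φ 2 ∧ cl φ 2 < 12 := by
      have := (φ 2).2
      simp only [cl]
      constructor
      · simp
      · simp; omega
    rcases x with x | x
    · fin_cases x
      · exact card_four (by omega) (by omega) (by omega)
      · exact card_four (by omega) (by omega) (by omega)
    · fin_cases x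
      · exact card_four (by omega) (by omega) (by omega)
      · exact card_four (by omega) (by omega) (by omega)
      · exact card_four (by omega) (by omega) (by omega)
      · exact card_four (by omega) (by omega) (by omega)
      · exact card_four (by omega) (by omega) (by omega)

/-- A vertex with three distinct neighbours of its own colour gives a monochromatic star. -/
lemma mono_star (col : Vt → ℕ) (v x y z : Vt) (hx : G.Adj v x) (hy : G.Adj v y) (hz : G.Adj v z)
    (hxy : x ≠ y) (hxz : x ≠ z) (hyz : y ≠ z)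
    (cx : col x = col v) (cy : col y = col v) (cz : col z = col v) :
    ∃ c : ℕ, ∃ f : Option (Fin 3) → Set Vt,
            (∀ u, (G.induce (f u)).Connected) ∧
            (∀ u u', u ≠ u' → Disjoint (f u) (f u')) ∧
            (∀ u u', star.Adj u u' → ∃ x ∈ f u, ∃ y ∈ f u', G.Adj x y) ∧
            (∀ u, ∀ x ∈ f u, col x = c) := by
  let p : Option (Fin 3) → Vt := fun u => match u with
    | none => v
    | some 0 => x
    | some 1 => y
    | some 2 => z
  have hadj : ∀ i : Fin 3, G.Adj v (p (some i)) := by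
    intro i
    fin_cases i
    · exact hx
    · exact hy
    · exact hz
  have hinj : Function.Injective p := by
    intro u u' h
    rcases u with _ | i <;> rcases u' with _ | j
    · rfl
    · exact absurd h (hadj j).ne
    · exact absurd h.symm (hadj i).ne
    · fin_cases i <;> fin_cases j <;> first | rfl | (exfalso; first | exact hxy h | exact hxz h | exact hyz h | exact hxy h.symm | exact hxz h.symm | exact hyz h.symm)
  refine ⟨col v, fun u => {p u}, ?_, ?_, ?_, ?_⟩
  · intro u
    have : Subsingleton ({p u} : Set Vt) := by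
      constructor
      rintro ⟨a, ha⟩ ⟨b, hb⟩
      exact Subtype.ext ((show a = p u from ha).trans (show b = p u from hb).symm)
    have : Nonempty ({p u} : Set Vt) := ⟨⟨p u, rfl⟩⟩
    refine ⟨fun a b => ?_⟩
    rw [Subsingleton.elim a b]
  · intro u u' h
    rw [Set.disjoint_singleton]
    exact fun hh => h (hinj hh)
  · intro u u' h
    refine ⟨p u, rfl, p u', rfl, ?_⟩
    rcases h with ⟨h1, h2⟩ | ⟨h1, h2⟩
    · subst h1
      obtain ⟨j, rfl⟩ := Option.ne_none_iff_exists'.1 h2
      exact hadj j
    · subst h2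
      obtain ⟨j, rfl⟩ := Option.ne_none_iff_exists'.1 h1
      exact (hadj j).symm
  · intro u a ha
    have ha' : a = p u := ha
    rw [ha']
    rcases u with _ | i
    · rfl
    · fin_cases i
      · exact cx
      · exact cy
      · exact cz

theorem no_colouring (col : Vt → ℕ) (hcol : ∀ v, col v ∈ L v)
    (hno : ¬ ∃ c : ℕ, ∃ f : Option (Fin 3) → Set Vt,
            (∀ u, (G.induce (f u)).Connected) ∧
            (∀ u u', u ≠ u' → Disjoint (f u) (f u')) ∧
            (∀ u u', star.Adj u u' → ∃ x ∈ f u, ∃ y ∈ f u', G.Adj x y) ∧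
            (∀ u, ∀ x ∈ f u, col x = c)) : False := by
  classical
  have hs : ∀ v x y z : Vt, G.Adj v x → G.Adj v y → G.Adj v z → x ≠ y → x ≠ z → y ≠ z →
      col x = col v → col y = col v → col z = col v → False := by
    intro v x y z hx hy hz hxy hxz hyz cx cy cz
    exact hno (mono_star col v x y z hx hy hz hxy hxz hyz cx cy cz)
  -- the colours of the triangle
  have hφ : ∀ i : Fin 3, ∃ a : Fin 4, col (Sum.inl i) = 4 * i.1 + a.1 := by
    intro i
    have := hcol (Sum.inl i)
    simp only [L, Finset.mem_insert, Finset.mem_singleton] at this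
    rcases this with h | h | h | h
    · exact ⟨0, by simpa using h⟩
    · exact ⟨1, by simpa using h⟩
    · exact ⟨2, by simpa using h⟩
    · exact ⟨3, by simpa using h⟩
  choose φ hφ using hφ
  have hcl : ∀ i : Fin 3, col (Sum.inl i) = cl φ i := hφ
  -- a good copy
  obtain ⟨n, hn⟩ : ∃ n : Fin 7, ∀ (i : Fin 3) (x : Fin 2 ⊕ Fin 5),
      G.Adj (Sum.inl i) (Sum.inr ((φ, n), x)) → col (Sum.inr ((φ, n), x)) ≠ col (Sum.inl i) := by
    by_contra hcon
    push Not at hcon
    choose i x hadj hc using hcon
    obtain ⟨i0, hi0⟩ := Fintype.exists_lt_card_fiber_of_mul_lt_card (f := i) (n := 2) (by simp)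
    rw [Finset.two_lt_card] at hi0
    obtain ⟨a, ha, b, hb, c, hc', hab, hac, hbc⟩ := hi0
    have ha' : i a = i0 := by simpa using ha
    have hb' : i b = i0 := by simpa using hb
    have hcc : i c = i0 := by simpa using hc'
    have h1 := hadj a
    have h2 := hadj b
    have h3 := hadj c
    have k1 := hc a
    have k2 := hc b
    have k3 := hc c
    rw [ha'] at h1 k1
    rw [hb'] at h2 k2
    rw [hcc] at h3 k3
    refine hs _ _ _ _ h1 h2 h3 ?_ ?_ ?_ k1 k2 k3
    · intro h
      simp only [Sum.inr.injEq, Prod.mk.injEq, true_and] at h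
      exact hab h.1
    · intro h
      simp only [Sum.inr.injEq, Prod.mk.injEq, true_and] at h
      exact hac h.1
    · intro h
      simp only [Sum.inr.injEq, Prod.mk.injEq, true_and] at h
      exact hbc h.1
  -- forced colours
  set k : Pc := (φ, n) with hk
  have adjT : ∀ (i : Fin 3) (x : Fin 2 ⊕ Fin 5),
      labAdj (Sum.inl (Fin.castLE (by omega) i)) (lab (Sum.inr (k, x))) →
      G.Adj (Sum.inl i) (Sum.inr (k, x)) := by
    intro i x h
    exact ⟨Or.inl rfl, h⟩
  have adjP : ∀ (x y : Fin 2 ⊕ Fin 5),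
      labAdj (lab (Sum.inr (k, x))) (lab (Sum.inr (k, y))) →
      G.Adj (Sum.inr (k, x)) (Sum.inr (k, y)) := by
    intro x y h
    exact ⟨Or.inr (Or.inr rfl), h⟩
  have hav : ∀ (i : Fin 3) (x : Fin 2 ⊕ Fin 5),
      labAdj (Sum.inl (Fin.castLE (by omega) i)) (lab (Sum.inr (k, x))) →
      col (Sum.inr (k, x)) ≠ cl φ i := by
    intro i x h
    rw [← hcl i]
    exact hn i x (adjT i x h)
  have hmem : ∀ x, col (Sum.inr (k, x)) ∈ Lp φ x := fun x => hcol (Sum.inr (k, x))
  have s3 : col (Sum.inr (k, Sum.inl 0)) = 12 := by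
    have h := hmem (Sum.inl 0)
    simp only [Lp, Finset.mem_insert, Finset.mem_singleton] at h
    rcases h with h | h | h | h
    · exact absurd h (hav 0 _ (by simp [labAdj, lab]; try decide))
    · exact absurd h (hav 1 _ (by simp [labAdj, lab]; try decide))
    · exact absurd h (hav 2 _ (by simp [labAdj, lab]; try decide))
    · exact h
  have s4 : col (Sum.inr (k, Sum.inl 1)) = 13 := by
    have h := hmem (Sum.inl 1)
    simp only [Lp, Finset.mem_insert, Finset.mem_singleton] at h
    rcases h with h | h | h | h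
    · exact absurd h (hav 0 _ (by simp [labAdj, lab]; try decide))
    · exact absurd h (hav 1 _ (by simp [labAdj, lab]; try decide))
    · exact absurd h (hav 2 _ (by simp [labAdj, lab]; try decide))
    · exact h
  have w3 : col (Sum.inr (k, Sum.inr 3)) = 13 := by
    have h := hmem (Sum.inr 3)
    simp only [Lp, Finset.mem_insert, Finset.mem_singleton] at h
    rcases h with h | h | h | h
    · exact absurd h (hav 0 _ (by simp [labAdj, lab]; try decide))
    · exact absurd h (hav 1 _ (by simp [labAdj, lab]; try decide))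
    · exact absurd h (hav 2 _ (by simp [labAdj, lab]; try decide))
    · exact h
  have w4 : col (Sum.inr (k, Sum.inr 4)) = 12 := by
    have h := hmem (Sum.inr 4)
    simp only [Lp, Finset.mem_insert, Finset.mem_singleton] at h
    rcases h with h | h | h | h
    · exact absurd h (hav 0 _ (by simp [labAdj, lab]; try decide))
    · exact absurd h (hav 1 _ (by simp [labAdj, lab]; try decide))
    · exact absurd h (hav 2 _ (by simp [labAdj, lab]; try decide))
    · exact h
  have w0 : col (Sum.inr (k, Sum.inr 0)) = 12 ∨ col (Sum.inr (k, Sum.inr 0)) = 13 := by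
    have h := hmem (Sum.inr 0)
    simp only [Lp, Finset.mem_insert, Finset.mem_singleton] at h
    rcases h with h | h | h | h
    · exact absurd h (hav 1 _ (by simp [labAdj, lab]; try decide))
    · exact absurd h (hav 2 _ (by simp [labAdj, lab]; try decide))
    · exact Or.inl h
    · exact Or.inr h
  have w1 : col (Sum.inr (k, Sum.inr 1)) = 12 ∨ col (Sum.inr (k, Sum.inr 1)) = 13 := by
    have h := hmem (Sum.inr 1)
    simp only [Lp, Finset.mem_insert, Finset.mem_singleton] at h
    rcases h with h | h | h | h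
    · exact absurd h (hav 0 _ (by simp [labAdj, lab]; try decide))
    · exact absurd h (hav 2 _ (by simp [labAdj, lab]; try decide))
    · exact Or.inl h
    · exact Or.inr h
  have w2 : col (Sum.inr (k, Sum.inr 2)) = 12 ∨ col (Sum.inr (k, Sum.inr 2)) = 13 := by
    have h := hmem (Sum.inr 2)
    simp only [Lp, Finset.mem_insert, Finset.mem_singleton] at h
    rcases h with h | h | h | h
    · exact absurd h (hav 0 _ (by simp [labAdj, lab]; try decide))
    · exact absurd h (hav 1 _ (by simp [labAdj, lab]; try decide))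
    · exact Or.inl h
    · exact Or.inr h
  -- two of the three small vertices 0, 1, 2 share a colour
  have hub3 : ∀ i : Fin 5, i ≠ 3 → G.Adj (Sum.inr (k, Sum.inl 0)) (Sum.inr (k, Sum.inr i)) := by
    intro i hi
    refine adjP _ _ ?_
    simp only [lab, labAdj]
    exact fun h => hi h.symm
  have hub4 : ∀ i : Fin 5, i ≠ 4 → G.Adj (Sum.inr (k, Sum.inl 1)) (Sum.inr (k, Sum.inr i)) := by
    intro i hi
    refine adjP _ _ ?_
    simp only [lab, labAdj]
    exact fun h => hi h.symm
  have hne : ∀ i j : Fin 5, i ≠ j → (Sum.inr (k, Sum.inr i) : Vt) ≠ Sum.inr (k, Sum.inr j) := by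
    intro i j hij h
    simp only [Sum.inr.injEq, Prod.mk.injEq, true_and] at h
    exact hij h
  have two12 : ∀ i j : Fin 5, i ≠ j → i ≠ 3 → j ≠ 3 → i ≠ 4 → j ≠ 4 →
      col (Sum.inr (k, Sum.inr i)) = 12 → col (Sum.inr (k, Sum.inr j)) = 12 → False := by
    intro i j hij hi3 hj3 hi4 hj4 ci cj
    exact hs (Sum.inr (k, Sum.inl 0)) _ _ _ (hub3 4 (by decide)) (hub3 i hi3) (hub3 j hj3)
      (hne 4 i hi4.symm) (hne 4 j hj4.symm) (hne i j hij)
      (by rw [w4, s3]) (by rw [ci, s3]) (by rw [cj, s3])
  have two13 : ∀ i j : Fin 5, i ≠ j → i ≠ 3 → j ≠ 3 → i ≠ 4 → j ≠ 4 →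
      col (Sum.inr (k, Sum.inr i)) = 13 → col (Sum.inr (k, Sum.inr j)) = 13 → False := by
    intro i j hij hi3 hj3 hi4 hj4 ci cj
    exact hs (Sum.inr (k, Sum.inl 1)) _ _ _ (hub4 3 (by decide)) (hub4 i hi4) (hub4 j hj4)
      (hne 3 i hi3.symm) (hne 3 j hj3.symm) (hne i j hij)
      (by rw [w3, s4]) (by rw [ci, s4]) (by rw [cj, s4])
  rcases w0 with h0 | h0 <;> rcases w1 with h1 | h1 <;> rcases w2 with h2 | h2
  · exact two12 0 1 (by decide) (by decide) (by decide) (by decide) (by decide) h0 h1
  · exact two12 0 1 (by decide) (by decide) (by decide) (by decide) (by decide) h0 h1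
  · exact two12 0 2 (by decide) (by decide) (by decide) (by decide) (by decide) h0 h2
  · exact two13 1 2 (by decide) (by decide) (by decide) (by decide) (by decide) h1 h2
  · exact two12 1 2 (by decide) (by decide) (by decide) (by decide) (by decide) h1 h2
  · exact two13 0 2 (by decide) (by decide) (by decide) (by decide) (by decide) h0 h2
  · exact two13 0 1 (by decide) (by decide) (by decide) (by decide) (by decide) h0 h1
  · exact two13 0 1 (by decide) (by decide) (by decide) (by decide) (by decide) h0 h1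

/-- The seven vertices of the join of the star with two leaves and the star with three leaves. -/
def e : Fin 7 → Option (Fin 2) ⊕ Option (Fin 3) :=
  ![Sum.inl none, Sum.inr none, Sum.inl (some 0), Sum.inl (some 1),
    Sum.inr (some 0), Sum.inr (some 1), Sum.inr (some 2)]

lemma e_ne : ∀ i j, i ≠ j → e i ≠ e j := by decide

lemma e_key : ∀ i j : Fin 7, i < j → part i ≠ part j →
    (∃ t : Fin 2, e i = Sum.inl none ∧ e j = Sum.inl (some t)) ∨
    (∃ w w' : Option (Fin 3), e i = Sum.inr w ∧ e j = Sum.inr w' ∧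
      ((w = none ∧ w' ≠ none) ∨ (w ≠ none ∧ w' = none))) ∨
    (∃ (s : Option (Fin 2)) (w : Option (Fin 3)), e i = Sum.inl s ∧ e j = Sum.inr w) ∨
    (∃ (s : Option (Fin 2)) (w : Option (Fin 3)), e j = Sum.inl s ∧ e i = Sum.inr w) := by
  intro i j
  fin_cases i <;> fin_cases j <;> intro h hp <;>
    first
    | exact absurd h (by decide)
    | exact absurd rfl hp
    | exact Or.inl ⟨_, rfl, rfl⟩
    | exact Or.inr (Or.inl ⟨_, _, rfl, rfl, Or.inl ⟨rfl, by simp⟩⟩)
    | exact Or.inr (Or.inr (Or.inl ⟨_, _, rfl, rfl⟩))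
    | exact Or.inr (Or.inr (Or.inr ⟨_, _, rfl, rfl⟩))

lemma e_adj : ∀ i j : Fin 7, part i ≠ part j →
    (SimpleGraph.fromRel
      (fun a b : Option (Fin 2) ⊕ Option (Fin 3) =>
        (∃ i : Fin 2, a = Sum.inl none ∧ b = Sum.inl (some i)) ∨
        (∃ w w' : Option (Fin 3), a = Sum.inr w ∧ b = Sum.inr w' ∧ star.Adj w w') ∨
        (∃ (s : Option (Fin 2)) (w : Option (Fin 3)), a = Sum.inl s ∧ b = Sum.inr w))).Adj
      (e i) (e j) := by
  have sym : ∀ i j : Fin 7, i < j → part i ≠ part j →
    (SimpleGraph.fromRel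
      (fun a b : Option (Fin 2) ⊕ Option (Fin 3) =>
        (∃ i : Fin 2, a = Sum.inl none ∧ b = Sum.inl (some i)) ∨
        (∃ w w' : Option (Fin 3), a = Sum.inr w ∧ b = Sum.inr w' ∧ star.Adj w w') ∨
        (∃ (s : Option (Fin 2)) (w : Option (Fin 3)), a = Sum.inl s ∧ b = Sum.inr w))).Adj
      (e i) (e j) := by
    intro i j hlt hp
    rw [SimpleGraph.fromRel_adj]
    refine ⟨e_ne i j hlt.ne, ?_⟩
    rcases e_key i j hlt hp with h | h | h | h
    · exact Or.inl (Or.inl h)
    · exact Or.inl (Or.inr (Or.inl h))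
    · exact Or.inl (Or.inr (Or.inr h))
    · exact Or.inr (Or.inr (Or.inr h))
  intro i j hp
  rcases lt_trichotomy i j with h | h | h
  · exact sym i j h hp
  · exact absurd (congrArg _ h) hp
  · exact (sym j i h hp.symm).symm

end Pool.Agent.W_MP_2d9473_co_helper56
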